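import Pool.Agent.H21.E.Lim

/-! An upper bound for the Turán density of the complete `4`-graph on five vertices. -/

set_option autoImplicit false
open Finset Filter Topology

namespace Pool.Agent.Results.MP_a4d830_co.EdgeBound

open Pool.Agent.H3.Y (FourGraph K5Free ex)

/-- Every `K_5^4`-free `4`-graph on `n` vertices has at most `0.69175 * n ^ 4 / 24` edges; therefore the
Turán density of `K_5^4` is at most `0.69175 = 2767 / 4000`. -/
theorem result :
    (∀ (n : ℕ) (H : Finset (Finset (Fin n))), FourGraph H → K5Free H → 96000 * H.card ≤ 2767 * n ^ 4) ∧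
    (∀ π : ℝ, Tendsto (fun n : ℕ => (ex n : ℝ) / (n.choose 4 : ℝ)) atTop (𝓝 π) → π ≤ 2767 / 4000) := by
  refine ⟨fun n H h4 hK => ?_, Pool.Agent.H21.E.density_le⟩
  have h := Pool.Agent.H21.E.upper H h4 hK
  rwa [Fintype.card_fin] at h

end Pool.Agent.Results.MP_a4d830_co.EdgeBound
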